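import Pool.Agent.H31.PC.Targets

/-!
# Module ONE of the board pc_modules (MP_6e60ff_nt)
-/

namespace Pool.Agent.H21.PC.ONE

open Finset Pool.Agent.H31.PC Pool.Agent.H31.RZ

/-- the interval -/
noncomputable def IY (Y : ℕ) : Finset ℤ := Finset.Icc (-(Y : ℤ)) Y

theorem card_IY (Y : ℕ) : #(IY Y) = 2 * Y + 1 := by
  rw [IY, Int.card_Icc]
  omega

theorem mem_IY {Y : ℕ} {x : ℤ} : x ∈ IY Y ↔ |x| ≤ Y := by
  rw [IY, Finset.mem_Icc, abs_le]

/-- divisors of a nonzero integer in the interval -/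
theorem card_div (Y : ℕ) {z : ℤ} (hz : z ≠ 0) :
    #((IY Y).filter fun w => w ≠ 0 ∧ w ∣ z) ≤ 2 * #z.natAbs.divisors := by
  classical
  have h1 : (IY Y).filter (fun w => w ≠ 0 ∧ w ∣ z) ⊆
      z.natAbs.divisors.image (fun n : ℕ => (n : ℤ)) ∪
        z.natAbs.divisors.image (fun n : ℕ => -(n : ℤ)) := by
    intro w hw
    rw [Finset.mem_filter] at hw
    have h2 : w.natAbs ∈ z.natAbs.divisors := by
      rw [Nat.mem_divisors]
      exact ⟨Int.natAbs_dvd_natAbs.2 hw.2.2, Int.natAbs_ne_zero.2 hz⟩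
    rw [Finset.mem_union, Finset.mem_image, Finset.mem_image]
    rcases Int.natAbs_eq w with h3 | h3
    · exact Or.inl ⟨w.natAbs, h2, h3.symm⟩
    · exact Or.inr ⟨w.natAbs, h2, h3.symm⟩
  refine (Finset.card_le_card h1).trans ((Finset.card_union_le _ _).trans ?_)
  have h2 := Finset.card_image_le (s := z.natAbs.divisors) (f := fun n : ℕ => (n : ℤ))
  have h3 := Finset.card_image_le (s := z.natAbs.divisors) (f := fun n : ℕ => -(n : ℤ))
  omega

theorem hv_abs {d R Y : ℕ} {φ : Polynomial ℤ} (hφ : ∀ j, |φ.coeff j| ≤ R) {u v : ℤ}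
    (hu : |u| ≤ Y) (hv' : |v| ≤ Y) : |hv d φ u v| ≤ (d + 1) * (R * (Y : ℤ) ^ d) := by
  unfold hv
  refine (Finset.abs_sum_le_sum_abs _ _).trans ?_
  have h1 : ∀ j ∈ Finset.range (d + 1), |φ.coeff j * u ^ (d - j) * v ^ j| ≤
      R * (Y : ℤ) ^ d := by
    intro j hj
    rw [Finset.mem_range] at hj
    rw [abs_mul, abs_mul, abs_pow, abs_pow, mul_assoc]
    have h2 : (Y : ℤ) ^ d = (Y : ℤ) ^ (d - j) * (Y : ℤ) ^ j := by
      rw [← pow_add]
      congr 1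
      omega
    rw [h2]
    refine mul_le_mul (hφ j) ?_ (by positivity) (by positivity)
    exact mul_le_mul (pow_le_pow_left₀ (abs_nonneg _) hu _) (pow_le_pow_left₀ (abs_nonneg _) hv' _)
      (by positivity) (by positivity)
  refine (Finset.sum_le_card_nsmul _ _ _ h1).trans ?_
  rw [Finset.card_range, nsmul_eq_mul]
  push_cast
  exact le_rfl

/-- the zeros of a nonzero binary form -/
theorem zeros_u {d : ℕ} {φ : Polynomial ℤ} (hd : φ.natDegree ≤ d) (h0 : φ ≠ 0) (Y : ℕ) {u : ℤ}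
    (hu : u ≠ 0) : #((IY Y).filter fun v => hv d φ u v = 0) ≤ d := by
  classical
  set P : Polynomial ℤ := ∑ j ∈ Finset.range (d + 1),
    Polynomial.monomial j (φ.coeff j * u ^ (d - j)) with hP
  have hcoe : ∀ k ≤ d, P.coeff k = φ.coeff k * u ^ (d - k) := by
    intro k hk
    rw [hP, Polynomial.finsetSum_coeff]
    simp only [Polynomial.coeff_monomial]
    rw [Finset.sum_ite_eq' (Finset.range (d + 1)) k]
    rw [if_pos (Finset.mem_range.2 (by omega))]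
  have hne : P ≠ 0 := by
    intro h1
    apply h0
    ext k
    rw [Polynomial.coeff_zero]
    by_cases hk : k ≤ d
    · have h2 := hcoe k hk
      rw [h1, Polynomial.coeff_zero] at h2
      rcases mul_eq_zero.1 h2.symm with h3 | h3
      · exact h3
      · exact absurd h3 (pow_ne_zero _ hu)
    · exact Polynomial.coeff_eq_zero_of_natDegree_lt (by omega)
  have hdeg : P.natDegree ≤ d := by
    rw [hP]
    refine Polynomial.natDegree_sum_le_of_forall_le _ _ fun j hj => ?_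
    rw [Finset.mem_range] at hj
    exact (Polynomial.natDegree_monomial_le _).trans (by omega)
  have heval : ∀ v : ℤ, P.eval v = hv d φ u v := by
    intro v
    rw [hP, Polynomial.eval_finsetSum, hv]
    refine Finset.sum_congr rfl fun j _ => ?_
    rw [Polynomial.eval_monomial]
  have hsub : (IY Y).filter (fun v => hv d φ u v = 0) ⊆ P.roots.toFinset := by
    intro v hv1
    rw [Finset.mem_filter] at hv1
    rw [Multiset.mem_toFinset, Polynomial.mem_roots hne, Polynomial.IsRoot.def, heval]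
    exact hv1.2
  refine (Finset.card_le_card hsub).trans ((Multiset.toFinset_card_le _).trans ?_)
  exact (Polynomial.card_roots' P).trans hdeg

theorem zeros {d : ℕ} {φ : Polynomial ℤ} (hd : φ.natDegree ≤ d) (h0 : φ ≠ 0) (Y : ℕ) :
    #((IY Y ×ˢ IY Y).filter fun w => hv d φ w.1 w.2 = 0) ≤ (d + 1) * (2 * Y + 1) := by
  classical
  have h1 : #((IY Y ×ˢ IY Y).filter fun w => hv d φ w.1 w.2 = 0) =
      ∑ u ∈ IY Y, #((IY Y).filter fun v => hv d φ u v = 0) := by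
    rw [Finset.card_filter, Finset.sum_product]
    refine Finset.sum_congr rfl fun u _ => ?_
    rw [Finset.card_filter]
  rw [h1]
  have h2 : ∀ u ∈ IY Y, #((IY Y).filter fun v => hv d φ u v = 0) ≤
      d + if u = 0 then 2 * Y + 1 else 0 := by
    intro u _
    split_ifs with hu
    · refine (Finset.card_filter_le _ _).trans ?_
      rw [card_IY]
      omega
    · exact zeros_u hd h0 Y hu
  refine (Finset.sum_le_sum h2).trans ?_
  rw [Finset.sum_add_distrib, Finset.sum_const, card_IY, smul_eq_mul, Finset.sum_ite_eq']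
  split_ifs <;> nlinarith

/-- one form -/
theorem one_form {d R Y : ℕ} {φ : Polynomial ℤ} (hφ : φ ∈ PB d R) (h0 : φ ≠ 0) {K : ℝ}
    (hK : ∀ z : ℤ, z ≠ 0 → |z| ≤ (d + 1) * (R * (Y : ℤ) ^ d) → (#z.natAbs.divisors : ℝ) ≤ K)
    (hK0 : 0 ≤ K) :
    (({y : Fin 3 → ℤ | nm y ≤ Y ∧ y 0 ≠ 0 ∧ y 0 ∣ hv d φ (y 1) (y 2)} : Set _).ncard : ℝ) ≤
      (2 * Y + 1) ^ 2 * (2 * K + (d + 1)) := by
  classical
  rw [mem_PB] at hφ
  set D : ℤ × ℤ → Finset ℤ := fun w => (IY Y).filter fun x => x ≠ 0 ∧ x ∣ hv d φ w.1 w.2 with hD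
  set F : Finset (Fin 3 → ℤ) := (IY Y ×ˢ IY Y).biUnion fun w =>
    (D w).image fun x => ![x, w.1, w.2] with hF
  have h1 : ({y : Fin 3 → ℤ | nm y ≤ Y ∧ y 0 ≠ 0 ∧ y 0 ∣ hv d φ (y 1) (y 2)} : Set _) ⊆ F := by
    intro y hy
    obtain ⟨hy1, hy2, hy3⟩ := hy
    rw [nm_le_iff] at hy1
    rw [Finset.mem_coe, hF, Finset.mem_biUnion]
    refine ⟨(y 1, y 2), Finset.mem_product.2 ⟨mem_IY.2 (hy1 1), mem_IY.2 (hy1 2)⟩, ?_⟩
    rw [Finset.mem_image]
    refine ⟨y 0, Finset.mem_filter.2 ⟨mem_IY.2 (hy1 0), hy2, hy3⟩, ?_⟩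
    funext i
    fin_cases i <;> rfl
  have h2 : ({y : Fin 3 → ℤ | nm y ≤ Y ∧ y 0 ≠ 0 ∧ y 0 ∣ hv d φ (y 1) (y 2)} : Set _).ncard ≤
      ∑ w ∈ IY Y ×ˢ IY Y, #(D w) := by
    refine (Set.ncard_le_ncard h1 (Finset.finite_toSet _)).trans ?_
    rw [Set.ncard_coe_finset]
    refine Finset.card_biUnion_le.trans (Finset.sum_le_sum fun w _ => Finset.card_image_le)
  have h3 : (∑ w ∈ IY Y ×ˢ IY Y, #(D w) : ℝ) ≤
      ∑ w ∈ IY Y ×ˢ IY Y, (2 * K + if hv d φ w.1 w.2 = 0 then (2 * (Y : ℝ) + 1) else 0) := by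
    refine Finset.sum_le_sum fun w hw => ?_
    rw [Finset.mem_product] at hw
    split_ifs with hz
    · have h4 : #(D w) ≤ 2 * Y + 1 := by
        rw [← card_IY]
        exact Finset.card_filter_le _ _
      have h5 : (#(D w) : ℝ) ≤ 2 * Y + 1 := by exact_mod_cast h4
      linarith
    · have h4 := card_div Y hz
      have h5 := hK _ hz (hv_abs hφ.2 (mem_IY.1 hw.1) (mem_IY.1 hw.2))
      have h6 : (#(D w) : ℝ) ≤ 2 * (#(hv d φ w.1 w.2).natAbs.divisors : ℝ) := by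
        exact_mod_cast h4
      linarith
  have h4 : ∑ w ∈ IY Y ×ˢ IY Y, (2 * K + if hv d φ w.1 w.2 = 0 then (2 * (Y : ℝ) + 1) else 0) =
      (2 * Y + 1) ^ 2 * (2 * K) +
        (#((IY Y ×ˢ IY Y).filter fun w => hv d φ w.1 w.2 = 0) : ℝ) * (2 * Y + 1) := by
    rw [Finset.sum_add_distrib, Finset.sum_const, Finset.card_product, card_IY, ← Finset.sum_filter,
      Finset.sum_const, nsmul_eq_mul, nsmul_eq_mul]
    push_cast
    ring
  have h5 : ((#((IY Y ×ˢ IY Y).filter fun w => hv d φ w.1 w.2 = 0) : ℕ) : ℝ) ≤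
      (d + 1) * (2 * Y + 1) := by exact_mod_cast zeros hφ.1 h0 Y
  have h6 : (({y : Fin 3 → ℤ | nm y ≤ Y ∧ y 0 ≠ 0 ∧ y 0 ∣ hv d φ (y 1) (y 2)} : Set _).ncard : ℝ) ≤
      (∑ w ∈ IY Y ×ˢ IY Y, #(D w) : ℝ) := by exact_mod_cast h2
  have h7 : (0 : ℝ) ≤ 2 * Y + 1 := by positivity
  have h8 := mul_le_mul_of_nonneg_right h5 h7
  nlinarith [h3, h4, h6, h8]

theorem pf_ONE (h : T_DB) : T_ONE := by
  classical
  intro d ε hd hε
  have hd0 : (0 : ℝ) < d := by exact_mod_cast hd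
  obtain ⟨C0, hC0, hdiv⟩ := h (ε / d) (by positivity)
  set C1 : ℝ := ((d : ℝ) + 1) ^ (ε / d) with hC1
  have hC1' : 0 ≤ C1 := Real.rpow_nonneg (by positivity) _
  refine ⟨3 ^ (d + 1) * (9 * (2 * (C0 * C1) + (d + 1))), ?_, ?_⟩
  · have h1 : (1 : ℝ) ≤ 3 ^ (d + 1) := one_le_pow₀ (by norm_num)
    have h2 : (1 : ℝ) ≤ 9 * (2 * (C0 * C1) + (d + 1)) := by
      have : 0 ≤ C0 * C1 := mul_nonneg (by linarith) hC1'
      nlinarith
    nlinarith
  intro R Y hR hY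
  have hR1 : (1 : ℝ) ≤ R := by exact_mod_cast hR
  have hY1 : (1 : ℝ) ≤ Y := by exact_mod_cast hY
  have hRY : (1 : ℝ) ≤ (R : ℝ) * Y := by nlinarith
  set E : ℝ := ((R : ℝ) * Y) ^ ε with hE
  have hE1 : 1 ≤ E := Real.one_le_rpow hRY hε.le
  have hK : ∀ z : ℤ, z ≠ 0 → |z| ≤ (d + 1) * (R * (Y : ℤ) ^ d) →
      (#z.natAbs.divisors : ℝ) ≤ C0 * C1 * E := by
    intro z hz hzb
    have h1 := hdiv z.natAbs (Nat.one_le_iff_ne_zero.2 (Int.natAbs_ne_zero.2 hz))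
    refine h1.trans ?_
    rw [mul_assoc]
    refine mul_le_mul_of_nonneg_left ?_ (by linarith)
    have h2 : ((z.natAbs : ℕ) : ℝ) ≤ ((d : ℝ) + 1) * ((R : ℝ) * Y) ^ d := by
      have h3 : ((z.natAbs : ℕ) : ℤ) ≤ (d + 1) * (R * (Y : ℤ) ^ d) := by
        rw [← Int.abs_eq_natAbs]
        exact hzb
      have h4 : ((z.natAbs : ℕ) : ℝ) ≤ ((d : ℝ) + 1) * (R * (Y : ℝ) ^ d) := by exact_mod_cast h3
      refine h4.trans (mul_le_mul_of_nonneg_left ?_ (by positivity))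
      rw [mul_pow]
      refine mul_le_mul_of_nonneg_right ?_ (by positivity)
      exact le_self_pow₀ hR1 (by omega)
    refine (Real.rpow_le_rpow (Nat.cast_nonneg _) h2 (by positivity)).trans ?_
    rw [Real.mul_rpow (by positivity) (by positivity), ← Real.rpow_natCast,
      ← Real.rpow_mul (by positivity), mul_div_cancel₀ _ hd0.ne']
  have hK0 : 0 ≤ C0 * C1 * E := mul_nonneg (mul_nonneg (by linarith) hC1') (by linarith)
  have hone : ∀ φ ∈ (PB d R).filter (fun φ => φ ≠ 0),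
      (({y : Fin 3 → ℤ | nm y ≤ Y ∧ y 0 ≠ 0 ∧ y 0 ∣ hv d φ (y 1) (y 2)} : Set _).ncard : ℝ) ≤
        (2 * Y + 1) ^ 2 * (2 * (C0 * C1 * E) + (d + 1)) := by
    intro φ hφ
    rw [Finset.mem_filter] at hφ
    exact one_form hφ.1 hφ.2 hK hK0
  rw [Nat.cast_sum]
  refine (Finset.sum_le_card_nsmul _ _ _ hone).trans ?_
  rw [nsmul_eq_mul]
  have h1 : ((#((PB d R).filter (fun φ => φ ≠ 0)) : ℕ) : ℝ) ≤ 3 ^ (d + 1) * (R : ℝ) ^ (d + 1) := by
    have h2 : #((PB d R).filter (fun φ => φ ≠ 0)) ≤ (2 * R + 1) ^ (d + 1) := by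
      rw [← card_PB]
      exact Finset.card_filter_le _ _
    have h3 : (2 * R + 1) ^ (d + 1) ≤ (3 * R) ^ (d + 1) := Nat.pow_le_pow_left (by omega) _
    have h4 := h2.trans h3
    rw [mul_pow] at h4
    exact_mod_cast h4
  have h2 : (2 * (Y : ℝ) + 1) ^ 2 ≤ 9 * (Y : ℝ) ^ 2 := by nlinarith
  have h3 : 2 * (C0 * C1 * E) + ((d : ℝ) + 1) ≤ (2 * (C0 * C1) + (d + 1)) * E := by
    have : (d : ℝ) + 1 ≤ (d + 1) * E := by nlinarith
    nlinarith
  have h4 : (2 * (Y : ℝ) + 1) ^ 2 * (2 * (C0 * C1 * E) + (d + 1)) ≤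
      9 * (Y : ℝ) ^ 2 * ((2 * (C0 * C1) + (d + 1)) * E) := by
    refine mul_le_mul h2 h3 (by positivity) (by positivity)
  refine (mul_le_mul h1 h4 (by positivity) (by positivity)).trans (le_of_eq ?_)
  ring

end Pool.Agent.H21.PC.ONE
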