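import Pool.Agent.H31.PC.Targets

/-!
# Module RAD of the board pc_modules (MP_6e60ff_nt)
-/

namespace Pool.Agent.H21.PC.RAD

open Finset Pool.Agent.H31.PC

/-- the completely multiplicative function `n ^ (-ε)` -/
noncomputable def fe (ε : ℝ) : ℕ →* ℝ where
  toFun n := (n : ℝ) ^ (-ε)
  map_one' := by simp
  map_mul' a b := by
    simp only [Nat.cast_mul]
    exact Real.mul_rpow (Nat.cast_nonneg a) (Nat.cast_nonneg b)

theorem fe_apply (ε : ℝ) (n : ℕ) : fe ε n = (n : ℝ) ^ (-ε) := rfl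

theorem fe_nonneg (ε : ℝ) (n : ℕ) : 0 ≤ fe ε n := Real.rpow_nonneg (Nat.cast_nonneg n) _

theorem fe_prime {ε : ℝ} (hε : 0 < ε) {p : ℕ} (hp : p.Prime) : fe ε p < 1 := by
  rw [fe_apply]
  exact Real.rpow_lt_one_of_one_lt_of_neg (by exact_mod_cast hp.one_lt) (by linarith)

theorem sum_bound {ε : ℝ} (hε : 0 < ε) (P : Finset ℕ) (hP : ∀ p ∈ P, p.Prime) (Y : ℕ) :
    ∑ m ∈ (Finset.Icc 1 Y).filter (fun m => m ∈ Nat.factoredNumbers P), fe ε m ≤
      ∏ p ∈ P, (1 - fe ε p)⁻¹ := by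
  classical
  obtain ⟨h1, h2⟩ := EulerProduct.summable_and_hasSum_factoredNumbers_prod_filter_prime_geometric
    (f := fe ε) (fun {p} hp => by
      rw [Real.norm_of_nonneg (fe_nonneg ε p)]
      exact fe_prime hε hp) P
  rw [Finset.filter_true_of_mem hP] at h2
  rw [← h2.tsum_eq]
  set S := (Finset.Icc 1 Y).filter (fun m => m ∈ Nat.factoredNumbers P) with hS
  have h3 : ∑ m ∈ S, fe ε m = ∑ m ∈ S.subtype (fun m => m ∈ Nat.factoredNumbers P),
      fe ε (m : ℕ) := by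
    rw [← Finset.sum_subtype_of_mem (p := fun m => m ∈ Nat.factoredNumbers P) (fun m => fe ε m)]
    intro m hm
    exact (Finset.mem_filter.1 hm).2
  rw [h3]
  exact h2.summable.sum_le_tsum _ (fun i _ => fe_nonneg ε _)

theorem count_bound {ε : ℝ} (hε : 0 < ε) (k Y : ℕ) (hY : 1 ≤ Y) (hk : 0 < k)
    (hkr : ∏ p ∈ k.primeFactors, p = k) :
    (#{q ∈ Finset.Icc 1 Y | ∏ p ∈ q.primeFactors, p = k} : ℝ) ≤
      (∏ p ∈ k.primeFactors, (fe ε p * (1 - fe ε p)⁻¹)) * (Y : ℝ) ^ ε := by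
  classical
  set S := (Finset.Icc 1 Y).filter (fun q => ∏ p ∈ q.primeFactors, p = k) with hS
  have hY0 : (0 : ℝ) < Y := by exact_mod_cast hY
  have h1 : (#S : ℝ) ≤ ∑ q ∈ S, (Y : ℝ) ^ ε * fe ε q := by
    rw [Finset.card_eq_sum_ones, Nat.cast_sum]
    refine Finset.sum_le_sum fun q hq => ?_
    rw [hS, Finset.mem_filter, Finset.mem_Icc] at hq
    have hq0 : (0 : ℝ) < q := by exact_mod_cast hq.1.1
    have h2 : (Y : ℝ) ^ ε * fe ε q = ((Y : ℝ) / q) ^ ε := by
      rw [fe_apply, Real.rpow_neg hq0.le, Real.div_rpow hY0.le hq0.le, div_eq_mul_inv]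
    rw [h2, Nat.cast_one]
    apply Real.one_le_rpow _ hε.le
    rw [one_le_div hq0]
    exact_mod_cast hq.1.2
  have hdvd : ∀ q ∈ S, k ∣ q ∧ q / k ∈ (Finset.Icc 1 Y).filter
      (fun m => m ∈ Nat.factoredNumbers k.primeFactors) := by
    intro q hq
    rw [hS, Finset.mem_filter, Finset.mem_Icc] at hq
    have h3 : k ∣ q := by
      have := Nat.prod_primeFactors_dvd q
      rwa [hq.2] at this
    have h4 : k.primeFactors = q.primeFactors := by
      rw [← hq.2]
      exact Nat.primeFactors_prod fun p hp => Nat.prime_of_mem_primeFactors hp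
    refine ⟨h3, ?_⟩
    rw [Finset.mem_filter, Finset.mem_Icc]
    have h5 : q / k ∣ q := Nat.div_dvd_of_dvd h3
    refine ⟨⟨Nat.div_pos (Nat.le_of_dvd hq.1.1 h3) hk, (Nat.div_le_self _ _).trans hq.1.2⟩, ?_⟩
    rw [Nat.mem_factoredNumbers']
    intro p hp hpd
    rw [h4]
    exact Nat.mem_primeFactors.2 ⟨hp, hpd.trans h5, by omega⟩
  have h2 : ∑ q ∈ S, fe ε q ≤ fe ε k * ∏ p ∈ k.primeFactors, (1 - fe ε p)⁻¹ := by
    have h3 : ∑ q ∈ S, fe ε q = fe ε k * ∑ q ∈ S, fe ε (q / k) := by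
      rw [Finset.mul_sum]
      refine Finset.sum_congr rfl fun q hq => ?_
      rw [← map_mul, Nat.mul_div_cancel' (hdvd q hq).1]
    rw [h3]
    refine mul_le_mul_of_nonneg_left ?_ (fe_nonneg ε k)
    refine le_trans ?_ (sum_bound hε k.primeFactors
      (fun p hp => Nat.prime_of_mem_primeFactors hp) Y)
    have hinj : Set.InjOn (fun q => q / k) (S : Set ℕ) := by
      intro a ha b hb hab
      have h4 := (hdvd a ha).1
      have h5 := (hdvd b hb).1
      have h6 : a / k = b / k := hab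
      rw [← Nat.mul_div_cancel' h4, ← Nat.mul_div_cancel' h5, h6]
    rw [← Finset.sum_image (f := fun m => fe ε m) hinj]
    refine Finset.sum_le_sum_of_subset_of_nonneg ?_ (fun _ _ _ => fe_nonneg ε _)
    intro m hm
    obtain ⟨q, hq, rfl⟩ := Finset.mem_image.1 hm
    exact (hdvd q hq).2
  have h3 : fe ε k = ∏ p ∈ k.primeFactors, fe ε p := by
    conv_lhs => rw [← hkr]
    rw [map_prod]
  rw [← Finset.mul_sum] at h1
  calc (#S : ℝ) ≤ (Y : ℝ) ^ ε * ∑ q ∈ S, fe ε q := h1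
    _ ≤ (Y : ℝ) ^ ε * (fe ε k * ∏ p ∈ k.primeFactors, (1 - fe ε p)⁻¹) :=
        mul_le_mul_of_nonneg_left h2 (Real.rpow_nonneg hY0.le _)
    _ = _ := by
      rw [h3, ← Finset.prod_mul_distrib, mul_comm]

theorem pf_RAD : T_RAD := by
  classical
  intro ε hε
  -- the factor
  have hg : ∀ p : ℕ, p.Prime → fe ε p * (1 - fe ε p)⁻¹ = 1 / ((p : ℝ) ^ ε - 1) := by
    intro p hp
    have hp0 : (0 : ℝ) < p := by exact_mod_cast hp.pos
    have h1 : (1 : ℝ) < (p : ℝ) ^ ε := Real.one_lt_rpow (by exact_mod_cast hp.one_lt) hε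
    rw [fe_apply, Real.rpow_neg hp0.le]
    have h2 : (p : ℝ) ^ ε ≠ 0 := by positivity
    have h3 : (p : ℝ) ^ ε - 1 ≠ 0 := by linarith
    have h4 : 1 - ((p : ℝ) ^ ε)⁻¹ ≠ 0 := by
      rw [sub_ne_zero]
      intro h
      have := inv_eq_one.1 h.symm
      linarith
    field_simp
  obtain ⟨T, hT⟩ : ∃ T : ℕ, (2 : ℝ) ^ (1 / ε) ≤ T := exists_nat_ge _
  set W : ℝ := max 1 (1 / ((2 : ℝ) ^ ε - 1)) with hW
  have hW1 : 1 ≤ W := le_max_left _ _
  have h2e : (1 : ℝ) < (2 : ℝ) ^ ε := Real.one_lt_rpow (by norm_num) hε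
  refine ⟨W ^ T, one_le_pow₀ hW1, ?_⟩
  intro k Y hY
  have hYe : (0 : ℝ) ≤ (Y : ℝ) ^ ε := Real.rpow_nonneg (Nat.cast_nonneg _) _
  rcases Finset.eq_empty_or_nonempty
    ((Finset.Icc 1 Y).filter (fun q => ∏ p ∈ q.primeFactors, p = k)) with h0 | ⟨q, hq⟩
  · rw [h0, Finset.card_empty, Nat.cast_zero]
    positivity
  rw [Finset.mem_filter, Finset.mem_Icc] at hq
  have h4 : k.primeFactors = q.primeFactors := by
    rw [← hq.2]
    exact Nat.primeFactors_prod fun p hp => Nat.prime_of_mem_primeFactors hp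
  have hk : 0 < k := by
    rw [← hq.2]
    exact Finset.prod_pos fun p hp => (Nat.prime_of_mem_primeFactors hp).pos
  refine (count_bound hε k Y hY hk (by rw [h4]; exact hq.2)).trans ?_
  refine mul_le_mul_of_nonneg_right ?_ hYe
  have h5 : ∀ p ∈ k.primeFactors, fe ε p * (1 - fe ε p)⁻¹ ≤ if p < T then W else 1 := by
    intro p hp
    have hpp := Nat.prime_of_mem_primeFactors hp
    rw [hg p hpp]
    have h1 : (2 : ℝ) ^ ε ≤ (p : ℝ) ^ ε :=
      Real.rpow_le_rpow (by norm_num) (by exact_mod_cast hpp.two_le) hε.le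
    split_ifs with hlt
    · refine le_trans ?_ (le_max_right _ _)
      exact one_div_le_one_div_of_le (by linarith) (by linarith)
    · rw [div_le_one (by linarith)]
      have h6 : (2 : ℝ) ≤ (p : ℝ) ^ ε := by
        have h7 : (2 : ℝ) ^ (1 / ε) ≤ p := hT.trans (by exact_mod_cast not_lt.1 hlt)
        have h8 := Real.rpow_le_rpow (by positivity) h7 hε.le
        rwa [← Real.rpow_mul (by norm_num), one_div_mul_cancel hε.ne', Real.rpow_one] at h8
      linarith
  have h6 : ∀ p ∈ k.primeFactors, 0 ≤ fe ε p * (1 - fe ε p)⁻¹ := by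
    intro p hp
    have hpp := Nat.prime_of_mem_primeFactors hp
    have := fe_prime hε hpp
    exact mul_nonneg (fe_nonneg ε p) (inv_nonneg.2 (by linarith))
  refine (Finset.prod_le_prod h6 h5).trans ?_
  rw [Finset.prod_ite, Finset.prod_const, Finset.prod_const_one, mul_one]
  refine pow_le_pow_right₀ hW1 ?_
  calc #(k.primeFactors.filter (fun p => p < T)) ≤ #(Finset.range T) := by
        refine Finset.card_le_card fun p hp => ?_
        rw [Finset.mem_filter] at hp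
        exact Finset.mem_range.2 hp.2
    _ = T := Finset.card_range T

end Pool.Agent.H21.PC.RAD
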